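import Mathlib
import Pool.Agent.MP_0a7e48_nt.H35.Count

namespace Pool.Agent.MP_0a7e48_nt.H75

open Pool.Agent.MP_0a7e48_nt.H35

/-- A halting matrix `R` with a first backward move `k`. -/
structure Base (k : ℤ) (R : Mat) : Prop where
  h0 : 0 ≤ R 0 0
  h1 : R 0 0 < R 1 0
  h2 : 1 < R 1 0
  h3 : R 1 0 < R 1 1
  inF : InF (back k R)

def XB (k : ℤ) (R : Mat) : List ℕ → Mat
  | [] => back k R
  | j :: l => back (j + 1) (XB k R l)

theorem XB_inF {k : ℤ} {R : Mat} (h : Base k R) (l : List ℕ) : InF (XB k R l) := by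
  induction l with
  | nil => exact h.inF
  | cons j l ih => exact back_inF (by omega) ih

theorem XB_out {k : ℤ} {R : Mat} (h : Base k R) (l : List ℕ) :
    ∃ t, step^[t] (3, XB k R l) = (0, R) := by
  induction l with
  | nil =>
    refine ⟨1 + 3, ?_⟩
    rw [Function.iterate_add_apply, XB, step_back h.h0 h.h1 h.inF]
    show step (3, R) = _
    rw [Matrix.eta_fin_two R]
    exact step3_b h.h2 h.h3
  | cons j l ih =>
    obtain ⟨t, ht⟩ := ih
    refine ⟨t + 3, ?_⟩
    have h' := XB_inF h l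
    rw [Function.iterate_add_apply, XB, step_back h'.1.le h'.2.1 (XB_inF h (j :: l)), ht]

theorem XB_inj {k : ℤ} {R : Mat} (h : Base k R) :
    ∀ l l' : List ℕ, XB k R l = XB k R l' → l = l' := by
  have key : ∀ j l, XB k R [] ≠ XB k R (j :: l) := by
    intro j l e
    have hF := XB_inF h l
    have := (back_inj h.h0 h.h1 hF.1.le hF.2.1 e).2
    have h3 := hF.2.2.1
    rw [← this] at h3
    have := h.h2
    have := h.h3
    omega
  intro l
  induction l with
  | nil =>
    intro l' e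
    cases l' with
    | nil => rfl
    | cons j l' => exact absurd e (key j l')
  | cons j l ih =>
    intro l' e
    cases l' with
    | nil => exact absurd e.symm (key j l)
    | cons j' l' =>
      have hF := XB_inF h l
      have hF' := XB_inF h l'
      obtain ⟨h1, h2⟩ := back_inj hF.1.le hF.2.1 hF'.1.le hF'.2.1 e
      have : j = j' := by omega
      rw [this, ih l' h2]

theorem XB_eq (k : ℤ) (R : Mat) (l : List ℕ) :
    XB k R l = hOf l * back k R * Matrix.adjugate (hOf l) := by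
  induction l with
  | nil => simp [hOf, XB]
  | cons j l ih =>
    rw [show XB k R (j :: l) = back (j + 1) (XB k R l) from rfl, back_eq (j + 1), ih, hOf,
      Matrix.adjugate_mul_distrib]
    simp only [Matrix.mul_assoc]

theorem XB_mem (k : ℤ) {P : List ℕ} (hP : (MP P).det = 1) (l : List ℕ) :
    (XB k (MP P) l).det = 1 ∧ IsLLS (XB k (MP P) l) P := by
  let g : Mat := hOf l * !![0, 1; 1, k]
  have hg : g.det = 1 ∨ g.det = -1 := by
    simp only [g]
    rw [Matrix.det_mul, Matrix.det_fin_two_of]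
    rcases hOf_det l with h | h <;> simp [h]
  have hX : XB k (MP P) l = g * MP P * Matrix.adjugate g := by
    rw [XB_eq, back_eq, Matrix.adjugate_mul_distrib]
    simp only [g, Matrix.mul_assoc]
  have hgg : g.det * g.det = 1 := by rcases hg with h | h <;> simp [h]
  constructor
  · rw [hX, Matrix.det_mul, Matrix.det_mul, Matrix.det_adjugate, hP]
    simp [hgg]
  · have hu : IsUnit g := (Matrix.isUnit_iff_isUnit_det _).mpr (Int.isUnit_iff.mpr hg)
    obtain ⟨u, hu⟩ := hu
    refine ⟨u⁻¹, ?_⟩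
    have key : (u⁻¹).val * XB k (MP P) l * (u⁻¹⁻¹).val = g.det • MP P := by
      rw [inv_inv, hX, hu]
      simp only [Matrix.mul_assoc, Matrix.adjugate_mul, Matrix.mul_smul, Matrix.mul_one]
      rw [← hu, ← Matrix.mul_assoc, Units.inv_mul, Matrix.one_mul]
    rw [key]
    rcases hg with h | h <;> simp [h]

theorem conj_bound {h Z : Mat} {D Y : ℤ} (hZ : ∀ i j, |Z i j| ≤ D)
    (hh : ∀ i j i' j', 0 ≤ h i j * h i' j' ∧ h i j * h i' j' ≤ Y) (i j : Fin 2) :
    |(h * Z * Matrix.adjugate h) i j| ≤ 4 * D * Y := by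
  have one : ∀ z u : ℤ, |z| ≤ D → (0 ≤ u ∧ u ≤ Y) → -(D * Y) ≤ z * u ∧ z * u ≤ D * Y := by
    intro z u hz hu
    have h1 : |z * u| ≤ D * Y := by
      rw [abs_mul, abs_of_nonneg hu.1]
      exact mul_le_mul hz hu.2 hu.1 ((abs_nonneg z).trans hz)
    exact abs_le.mp h1
  have key : ∀ u v w z : ℤ, (0 ≤ u ∧ u ≤ Y) → (0 ≤ v ∧ v ≤ Y) → (0 ≤ w ∧ w ≤ Y) →
      (0 ≤ z ∧ z ≤ Y) → |Z 0 0 * u + Z 1 0 * v - Z 0 1 * w - Z 1 1 * z| ≤ 4 * D * Y := by
    intro u v w z hu hv hw hz
    have a1 := one _ _ (hZ 0 0) hu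
    have a2 := one _ _ (hZ 1 0) hv
    have a3 := one _ _ (hZ 0 1) hw
    have a4 := one _ _ (hZ 1 1) hz
    rw [abs_le]
    constructor <;> linarith [a1.1, a1.2, a2.1, a2.2, a3.1, a3.2, a4.1, a4.2]
  rw [Matrix.adjugate_fin_two]
  fin_cases i <;> fin_cases j
  · convert key _ _ _ _ (hh 0 0 1 1) (hh 0 1 1 1) (hh 0 0 1 0) (hh 0 1 1 0) using 2
    simp [Matrix.mul_apply, Fin.sum_univ_two]; ring
  · rw [← abs_neg]
    convert key _ _ _ _ (hh 0 0 0 1) (hh 0 1 0 1) (hh 0 0 0 0) (hh 0 1 0 0) using 2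
    simp [Matrix.mul_apply, Fin.sum_univ_two]; ring
  · convert key _ _ _ _ (hh 1 0 1 1) (hh 1 1 1 1) (hh 1 0 1 0) (hh 1 1 1 0) using 2
    simp [Matrix.mul_apply, Fin.sum_univ_two]; ring
  · rw [← abs_neg]
    convert key _ _ _ _ (hh 1 0 0 1) (hh 1 1 0 1) (hh 1 0 0 0) (hh 1 1 0 0) using 2
    simp [Matrix.mul_apply, Fin.sum_univ_two]; ring

theorem Gs_le_countB {k : ℤ} {P : List ℕ} (hB : Base k (MP P)) (hP : (MP P).det = 1)
    (hne : ¬ ∃ a₂, P = [1, a₂]) (h0 : MP P 0 0 ≠ 0)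
    (hcf : (MP P 1 0 : ℚ) / (MP P 0 0 : ℚ) = cf P.dropLast) {D : ℕ}
    (hD : ∀ i j, |back k (MP P) i j| ≤ D) (X : ℕ) :
    (Gs X).ncard ≤ 16 * count (64 * D * X) P := by
  classical
  let H : Mat → Mat := fun g => !![|g 0 0|, |g 0 0| + |g 0 1|; |g 0 0| + |g 1 0|,
    |g 0 0| + |g 0 1| + |g 1 0| + |g 1 1|]
  have hH : ∀ g ∈ Gs X, ∃ l, hOf l = H g := by
    rintro g ⟨hd, -⟩
    have h1 := abs_nonneg (g 0 0)
    have h2 := abs_nonneg (g 0 1)
    have h3 := abs_nonneg (g 1 0)
    have h4 := abs_nonneg (g 1 1)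
    refine exists_hOf (|g 0 0| + |g 1 0| + 1).toNat _ _ _ _ (by omega) h1 (by omega) (by omega)
      (by omega) (by omega) ?_
    rw [Matrix.det_fin_two] at hd
    have e : |g 0 0| * (|g 0 0| + |g 0 1| + |g 1 0| + |g 1 1|) -
        (|g 0 0| + |g 0 1|) * (|g 0 0| + |g 1 0|) = |g 0 0 * g 1 1| - |g 0 1 * g 1 0| := by
      rw [abs_mul, abs_mul]; ring
    rw [e]
    generalize g 0 0 * g 1 1 = u at *
    generalize g 0 1 * g 1 0 = v at *
    rcases abs_cases u with h | h <;> rcases abs_cases v with h' | h' <;> omega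
  choose! L hL using hH
  set T : Set Mat := {M : Mat | M.det = 1 ∧ (∀ i j, |M i j| ≤ (64 * D * X : ℕ)) ∧ IsLLS M P ∧
    ∃ (R : Mat) (t : ℕ), step^[t] (1, M) = (0, R) ∧
      ((∃ a₂, P = [1, a₂]) → R 0 0 = 0 ∧ R 1 0 = 1) ∧
      ((¬ ∃ a₂, P = [1, a₂]) → R 0 0 ≠ 0 ∧
        (R 1 0 : ℚ) / (R 0 0 : ℚ) = cf P.dropLast)} with hT
  have hTfin : T.Finite := (box_finite _).subset fun M hM => hM.2.1
  let f : Mat → (Fin 2 → Fin 2 → Bool) × Mat := fun g =>
    (fun i j => decide (0 ≤ g i j), XB k (MP P) (L g))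
  have h1 : (Gs X).ncard ≤ ((Set.univ : Set (Fin 2 → Fin 2 → Bool)) ×ˢ T).ncard := by
    refine Set.ncard_le_ncard_of_injOn f ?_ ?_ ((Set.toFinite _).prod hTfin)
    · intro g hg
      refine ⟨trivial, (XB_mem k hP _).1, ?_, (XB_mem k hP _).2, MP P, ?_⟩
      · simp only [f]
        rw [XB_eq, hL g hg]
        have hb : ∀ i j i' j', |g i j| * |g i' j'| ≤ X := by
          intro i j i' j'
          have h1 := hg.2 i j
          have h2 := hg.2 i' j'
          rw [← sq_abs] at h1 h2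
          nlinarith [sq_nonneg (|g i j| - |g i' j'|)]
        have hHb : ∀ i j i' j', 0 ≤ H g i j * H g i' j' ∧ H g i j * H g i' j' ≤ 16 * X := by
          have hs : ∀ i j, 0 ≤ H g i j ∧ H g i j ≤ |g 0 0| + |g 0 1| + |g 1 0| + |g 1 1| := by
            have h1 := abs_nonneg (g 0 0)
            have h2 := abs_nonneg (g 0 1)
            have h3 := abs_nonneg (g 1 0)
            have h4 := abs_nonneg (g 1 1)
            intro i j
            fin_cases i <;> fin_cases j <;> simp [H] <;> omega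
          intro i j i' j'
          refine ⟨mul_nonneg (hs _ _).1 (hs _ _).1, ?_⟩
          refine (mul_le_mul (hs _ _).2 (hs _ _).2 (hs _ _).1 (by positivity)).trans ?_
          nlinarith [hb 0 0 0 0, hb 0 0 0 1, hb 0 0 1 0, hb 0 0 1 1, hb 0 1 0 1, hb 0 1 1 0,
            hb 0 1 1 1, hb 1 0 1 0, hb 1 0 1 1, hb 1 1 1 1]
        intro i j
        refine (conj_bound hD hHb i j).trans (le_of_eq ?_)
        push_cast
        ring
      · obtain ⟨t, ht⟩ := XB_out hB (L g)
        refine ⟨t + 2, ?_, fun h => absurd h hne, fun _ => ⟨h0, hcf⟩⟩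
        simp only [f]
        rw [Function.iterate_add_apply, step_start (XB_inF hB _), ht]
    · intro g hg g' hg' h
      simp only [f, Prod.mk.injEq] at h
      obtain ⟨hs, hx⟩ := h
      have h2 : H g = H g' := by rw [← hL g hg, ← hL g' hg', XB_inj hB _ _ hx]
      have e00 := congrFun (congrFun h2 0) 0
      have e01 := congrFun (congrFun h2 0) 1
      have e10 := congrFun (congrFun h2 1) 0
      have e11 := congrFun (congrFun h2 1) 1
      simp only [H, Matrix.of_apply, Matrix.cons_val', Matrix.cons_val_zero,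
        Matrix.cons_val_one, Matrix.cons_val_fin_one] at e00 e01 e10 e11
      have habs : ∀ i j, |g i j| = |g' i j| := by
        intro i j
        fin_cases i <;> fin_cases j <;> simp only [Fin.zero_eta, Fin.mk_one, Fin.isValue] <;> omega
      ext i j
      have h3 := congrFun (congrFun hs i) j
      have h4 := habs i j
      simp only [decide_eq_decide] at h3
      rcases abs_cases (g i j) with h | h <;> rcases abs_cases (g' i j) with h' | h' <;> omega
  rw [Set.ncard_prod, Set.ncard_univ] at h1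
  have h16 : Nat.card (Fin 2 → Fin 2 → Bool) = 16 := by simp
  rw [h16] at h1
  exact h1

end Pool.Agent.MP_0a7e48_nt.H75
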