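import Mathlib
import Pool.Agent.MP_0a7e48_nt.H35.Count

namespace Pool.Agent.MP_0a7e48_nt.H75

open Pool.Agent.MP_0a7e48_nt.H35

def RepT (T : Mat) (ε : ℤ) (M g : Mat) : Prop :=
  (g.det = 1 ∨ g.det = -1) ∧ M * g = ε • (g * T)

theorem repT_of_LLS {T M : Mat} {P : List ℕ} {U : Mat} (hU : U.det = 1 ∨ U.det = -1)
    (hP : MP P * U = U * T) (h : IsLLS M P) : ∃ ε g, (ε = 1 ∨ ε = -1) ∧ RepT T ε M g := by
  obtain ⟨g, hg⟩ := h
  have hd : (g⁻¹).val.det = 1 ∨ (g⁻¹).val.det = -1 :=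
    Int.isUnit_iff.mp ((Matrix.isUnit_iff_isUnit_det _).mp (g⁻¹).isUnit)
  have hdet : ((g⁻¹).val * U).det = 1 ∨ ((g⁻¹).val * U).det = -1 := by
    rw [Matrix.det_mul]
    rcases hd with h | h <;> rcases hU with h' | h' <;> rw [h, h'] <;> simp
  have key : M * ((g⁻¹).val * U) = (g⁻¹).val * (g.val * M * (g⁻¹).val) * U := by
    simp only [← Matrix.mul_assoc, Units.inv_mul, Matrix.one_mul]
  rcases hg with hg | hg
  · refine ⟨1, _, Or.inl rfl, hdet, ?_⟩
    rw [key, hg, one_smul, Matrix.mul_assoc, hP, Matrix.mul_assoc]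
  · refine ⟨-1, _, Or.inr rfl, hdet, ?_⟩
    rw [key, hg, neg_smul, one_smul, Matrix.mul_neg, Matrix.neg_mul, Matrix.mul_assoc, hP,
      Matrix.mul_assoc]

theorem norm_ineqB {t B n0 n1 c E : ℤ} (hB : 1 ≤ B) (ht : 4 + 8 * B ^ 2 ≤ t) (h0 : 0 ≤ n0)
    (h1 : 0 ≤ n1) (hl : n0 * n1 - c ^ 2 = B ^ 2) (m0 : 2 * c ≤ t * n0) (m1 : 2 * c ≤ t * n1)
    (hE : |n0 + n1 - t * c| = E) : n0 + n1 ≤ 3 * E := by
  have hE1 : n0 + n1 - t * c ≤ E := hE ▸ le_abs_self _
  have hE2 : -(n0 + n1 - t * c) ≤ E := hE ▸ neg_le_abs _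
  have hB2 : B ≤ B ^ 2 := by nlinarith
  have ht0 : 0 < t := by nlinarith
  rcases le_or_gt c 0 with hc | hc
  · have : t * c ≤ 0 := mul_nonpos_of_nonneg_of_nonpos ht0.le hc
    nlinarith
  · have key : ∀ u v : ℤ, 0 ≤ u → u ≤ v → u * v - c ^ 2 = B ^ 2 → 2 * c ≤ t * u →
        4 * (u + v) ≤ 3 * (t * c) := by
      intro u v hu huv h hm
      have hu1 : 1 ≤ u := by
        by_contra hh
        have : u = 0 := by omega
        subst this
        nlinarith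
      have huc : u ≤ c + B := by
        by_contra hh
        have h2 : c + B + 1 ≤ u := by omega
        have h3 : (c + B + 1) * (c + B + 1) ≤ u * v :=
          mul_le_mul h2 (h2.trans huv) (by omega) hu
        nlinarith
      have hv : 2 * v ≤ t * c + 2 * B ^ 2 := by
        refine le_of_mul_le_mul_left ?_ (show 0 < u by omega)
        have h3 : c * (2 * c) ≤ c * (t * u) := mul_le_mul_of_nonneg_left hm hc.le
        have h4 : 1 * B ^ 2 ≤ u * B ^ 2 := mul_le_mul_of_nonneg_right hu1 (by positivity)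
        nlinarith
      have h5 : (4 + 8 * B ^ 2) * c ≤ t * c := mul_le_mul_of_nonneg_right ht hc.le
      have h6 : B ^ 2 * 1 ≤ B ^ 2 * c := mul_le_mul_of_nonneg_left (by omega) (by positivity)
      nlinarith
    have h2 : 4 * (n0 + n1) ≤ 3 * (t * c) := by
      rcases le_total n0 n1 with h | h
      · exact key n0 n1 h0 h hl m0
      · have := key n1 n0 h1 h (by linarith) m1
        linarith
    linarith

theorem repT_small {w B : ℕ} {c t : ℤ} (hB : 1 ≤ B) (ht : 4 + 8 * (B : ℤ) ^ 2 ≤ t)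
    (hd : (w : ℤ) * (t - w) - B * c = 1) {ε : ℤ} (hε : ε = 1 ∨ ε = -1) {M g : Mat} {N : ℕ}
    (hM : ∀ i j, |M i j| ≤ N) (h : RepT (!![(w : ℤ), (B : ℤ); c, t - w] : Mat) ε M g) :
    ∃ g', RepT (!![(w : ℤ), (B : ℤ); c, t - w] : Mat) ε M g' ∧ g' ∈ Gs (12 * B * (1 + w ^ 2) * N) := by
  classical
  let nz : Mat → ℤ := fun g => (g 0 0 * B - g 0 1 * w) ^ 2 + (g 1 0 * B - g 1 1 * w) ^ 2 +
    (g 0 1 ^ 2 + g 1 1 ^ 2)
  let nm : Mat → ℕ := fun g => (nz g).toNat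
  obtain ⟨g, hg, hmin⟩ := (measure nm).wf.has_min {g | RepT (!![(w : ℤ), (B : ℤ); c, t - w] : Mat) ε M g} ⟨g, h⟩
  have hmin' : ∀ g', RepT (!![(w : ℤ), (B : ℤ); c, t - w] : Mat) ε M g' → nz g ≤ nz g' := by
    intro g' hg'
    have h1 : ¬ nm g' < nm g := hmin g' hg'
    have h2 : 0 ≤ nz g' := by simp only [nz]; positivity
    simp only [nm] at h1
    omega
  have hcomm : ∀ V : Mat, V.det = 1 →
      (!![(w : ℤ), (B : ℤ); c, t - w] : Mat) * V = V * (!![(w : ℤ), (B : ℤ); c, t - w] : Mat) →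
      RepT (!![(w : ℤ), (B : ℤ); c, t - w] : Mat) ε M (g * V) := by
    intro V hV hc
    refine ⟨by rw [Matrix.det_mul, hV, mul_one]; exact hg.1, ?_⟩
    rw [← Matrix.mul_assoc, hg.2, Matrix.smul_mul, Matrix.mul_assoc, hc, Matrix.mul_assoc]
  have m1 := hmin' _ (hcomm (!![(w : ℤ), (B : ℤ); c, t - w] : Mat) (by rw [Matrix.det_fin_two_of]; linarith) rfl)
  have m2 := hmin' _ (hcomm (!![t - w, -(B : ℤ); -c, (w : ℤ)] : Mat) (by rw [Matrix.det_fin_two_of]; linarith) (by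
    rw [Matrix.mul_fin_two, Matrix.mul_fin_two]
    ext i j; fin_cases i <;> fin_cases j <;> simp <;> ring))
  refine ⟨g, hg, hg.1, ?_⟩
  obtain ⟨hdet, heq⟩ := hg
  have e00 := congrFun (congrFun heq 0) 0
  have e01 := congrFun (congrFun heq 0) 1
  have e10 := congrFun (congrFun heq 1) 0
  have e11 := congrFun (congrFun heq 1) 1
  rw [Matrix.det_fin_two] at hdet
  simp only [nz, Matrix.mul_apply, Fin.sum_univ_two, Matrix.of_apply, Matrix.cons_val',
    Matrix.cons_val_zero, Matrix.cons_val_one, Matrix.cons_val_fin_one, Matrix.smul_apply,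
    smul_eq_mul] at e00 e01 e10 e11 m1 m2
  have b1 := abs_le.mp (hM 1 0)
  have b2 := abs_le.mp (hM 0 1)
  have hB' : (1 : ℤ) ≤ B := by exact_mod_cast hB
  have habs : |M 1 0 - M 0 1| ≤ 2 * N := abs_le.mpr ⟨by omega, by omega⟩
  have hall : (g 0 0 * B - g 0 1 * w) ^ 2 + (g 1 0 * B - g 1 1 * w) ^ 2 +
      (g 0 1 ^ 2 + g 1 1 ^ 2) ≤ 3 * (B * |M 1 0 - M 0 1|) := by
    generalize g 0 0 = p1 at *
    generalize g 0 1 = y1 at *
    generalize g 1 0 = p2 at *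
    generalize g 1 1 = y2 at *
    have ht0 : 0 < t := by nlinarith
    obtain ⟨x1, hx1⟩ : ∃ x1, x1 = p1 * B - y1 * w := ⟨_, rfl⟩
    obtain ⟨x2, hx2⟩ : ∃ x2, x2 = p2 * B - y2 * w := ⟨_, rfl⟩
    have a1 : (p1 * w + y1 * c) * B - (p1 * B + y1 * (t - w)) * w = -y1 := by
      linear_combination (-y1) * hd
    have a2 : (p2 * w + y2 * c) * B - (p2 * B + y2 * (t - w)) * w = -y2 := by
      linear_combination (-y2) * hd
    have a3 : p1 * B + y1 * (t - w) = x1 + t * y1 := by rw [hx1]; ring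
    have a4 : p2 * B + y2 * (t - w) = x2 + t * y2 := by rw [hx2]; ring
    have a5 : (p1 * (t - w) + y1 * -c) * B - (p1 * -B + y1 * w) * w = t * x1 + y1 := by
      rw [hx1]; linear_combination y1 * hd
    have a6 : (p2 * (t - w) + y2 * -c) * B - (p2 * -B + y2 * w) * w = t * x2 + y2 := by
      rw [hx2]; linear_combination y2 * hd
    have a7 : p1 * -B + y1 * w = -x1 := by rw [hx1]; ring
    have a8 : p2 * -B + y2 * w = -x2 := by rw [hx2]; ring
    rw [a1, a2, a3, a4] at m1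
    rw [a5, a6, a7, a8] at m2
    rw [← hx1, ← hx2] at m1 m2 ⊢
    have hD : x1 * y2 - y1 * x2 = B * (p1 * y2 - y1 * p2) := by rw [hx1, hx2]; ring
    refine norm_ineqB (t := t) (B := B) (c := -(x1 * y1 + x2 * y2)) hB' ht (by positivity)
      (by positivity) ?_ ?_ ?_ ?_
    · have : (x1 * y2 - y1 * x2) ^ 2 = (B : ℤ) ^ 2 := by
        rw [hD]; rcases hdet with h | h <;> rw [h] <;> ring
      linear_combination this
    · refine le_of_mul_le_mul_left ?_ ht0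
      nlinarith
    · refine le_of_mul_le_mul_left ?_ ht0
      nlinarith
    · have h1 : (p1 * y2 - y1 * p2) * (B * (M 1 0 - M 0 1)) =
          -ε * (x1 ^ 2 + x2 ^ 2 + (y1 ^ 2 + y2 ^ 2) - t * -(x1 * y1 + x2 * y2)) := by
        have f0 : M 0 0 * x1 + M 0 1 * x2 = ε * -y1 := by
          rw [← a1, hx1, hx2]; linear_combination B * e00 - w * e01
        have f1 : M 1 0 * x1 + M 1 1 * x2 = ε * -y2 := by
          rw [← a2, hx1, hx2]; linear_combination B * e10 - w * e11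
        rw [a3] at e01
        rw [a4] at e11
        linear_combination y2 * f1 - x2 * e11 + y1 * f0 - x1 * e01 - (M 1 0 - M 0 1) * hD
      have h2 := congrArg abs h1
      rw [abs_mul, abs_mul, abs_mul, abs_neg, abs_of_nonneg (show (0 : ℤ) ≤ B by omega)] at h2
      rcases hdet with h | h <;> rcases hε with h' | h' <;> rw [h, h'] at h2 <;>
        simpa using h2.symm
  have hS : (g 0 0 * B - g 0 1 * w) ^ 2 + (g 1 0 * B - g 1 1 * w) ^ 2 +
      (g 0 1 ^ 2 + g 1 1 ^ 2) ≤ 6 * B * N := by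
    have : (B : ℤ) * |M 1 0 - M 0 1| ≤ B * (2 * N) := mul_le_mul_of_nonneg_left habs (by omega)
    linarith
  have one : ∀ p y : ℤ, (p * B - y * w) ^ 2 ≤ 6 * B * N → y ^ 2 ≤ 6 * B * N →
      p ^ 2 ≤ 12 * B * (1 + w ^ 2) * N ∧ y ^ 2 ≤ 12 * B * (1 + w ^ 2) * N := by
    intro p y h1 h2
    have h3 : (w : ℤ) ^ 2 * y ^ 2 ≤ w ^ 2 * (6 * B * N) :=
      mul_le_mul_of_nonneg_left h2 (by positivity)
    have h4 : p ^ 2 * 1 ≤ p ^ 2 * B ^ 2 := mul_le_mul_of_nonneg_left (by nlinarith) (by positivity)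
    have h5 : 0 ≤ (w : ℤ) ^ 2 * (6 * B * N) := by positivity
    have h6 : (0 : ℤ) ≤ 6 * B * N := by positivity
    constructor
    · nlinarith [sq_nonneg (p * B - 2 * (y * w))]
    · nlinarith
  have s1 := sq_nonneg (g 0 0 * B - g 0 1 * w)
  have s2 := sq_nonneg (g 0 1)
  have s3 := sq_nonneg (g 1 0 * B - g 1 1 * w)
  have s4 := sq_nonneg (g 1 1)
  have r0 := one (g 0 0) (g 0 1) (by linarith) (by linarith)
  have r1 := one (g 1 0) (g 1 1) (by linarith) (by linarith)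
  intro i j
  push_cast
  fin_cases i <;> fin_cases j
  · exact r0.1
  · exact r0.2
  · exact r1.1
  · exact r1.2

theorem count_leT {w B : ℕ} {c t : ℤ} (hB : 1 ≤ B) (ht : 4 + 8 * (B : ℤ) ^ 2 ≤ t)
    (hd : (w : ℤ) * (t - w) - B * c = 1) {P : List ℕ}
    (hP : ∀ M, IsLLS M P → ∃ ε g, (ε = 1 ∨ ε = -1) ∧ RepT (!![(w : ℤ), (B : ℤ); c, t - w] : Mat) ε M g) (N : ℕ) :
    count N P ≤ 2 * (Gs (12 * B * (1 + w ^ 2) * N)).ncard := by
  let f : ℤ × Mat → Mat := fun x =>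
    (x.1 * x.2.det) • (x.2 * (!![(w : ℤ), (B : ℤ); c, t - w] : Mat) * Matrix.adjugate x.2)
  have hfin : (({1, -1} : Set ℤ) ×ˢ Gs (12 * B * (1 + w ^ 2) * N)).Finite :=
    (Set.toFinite _).prod (Gs_finite _)
  have h1 : count N P ≤ (f '' (({1, -1} : Set ℤ) ×ˢ Gs (12 * B * (1 + w ^ 2) * N))).ncard := by
    refine Set.ncard_le_ncard ?_ (hfin.image f)
    rintro M ⟨-, hM, hL, -⟩
    obtain ⟨ε, g, hε, hg⟩ := hP M hL
    obtain ⟨g, hg, hg'⟩ := repT_small hB ht hd hε hM hg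
    refine ⟨(ε, g), ⟨hε, hg'⟩, ?_⟩
    have h2 : g.det * g.det = 1 := by rcases hg.1 with h | h <;> simp [h]
    simp only [f]
    rw [mul_comm, mul_smul, ← Matrix.smul_mul, ← hg.2, Matrix.mul_assoc, Matrix.mul_adjugate,
      Matrix.mul_smul, Matrix.mul_one, smul_smul, h2, one_smul]
  refine h1.trans ((Set.ncard_image_le hfin).trans ?_)
  rw [Set.ncard_prod, Set.ncard_pair (by norm_num)]

end Pool.Agent.MP_0a7e48_nt.H75
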