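import Mathlib
import Pool.Agent.MP_0a7e48_nt.H75.Upper
import Pool.Agent.MP_0a7e48_nt.H75.Lower

namespace Pool.Agent.MP_0a7e48_nt.H75

open Pool.Agent.MP_0a7e48_nt.H35 Filter Topology

theorem MP_cons (x : ℕ) (l : List ℕ) : MP (x :: l) = !![0, 1; 1, (x : ℤ)] * MP l := by
  simp [MP]

theorem MP_append (l l' : List ℕ) : MP (l ++ l') = MP l * MP l' := by
  simp [MP]

theorem MP_one (x : ℕ) : MP [x] = !![0, 1; 1, (x : ℤ)] := by
  simp [MP]

theorem MP_det (l : List ℕ) : (MP l).det = (-1) ^ l.length := by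
  induction l with
  | nil => simp [MP]
  | cons x l ih =>
    rw [MP_cons, Matrix.det_mul, ih, Matrix.det_fin_two_of, List.length_cons, pow_succ]
    ring

theorem MP_good (l : List ℕ) (hl : ∀ x ∈ l, 1 ≤ x) :
    0 ≤ MP l 0 0 ∧ 0 ≤ MP l 0 1 ∧ 0 ≤ MP l 1 0 ∧ MP l 0 1 ≤ MP l 1 1 ∧ 1 ≤ MP l 1 1 ∧
      (l = [] ∨ MP l 0 0 ≤ MP l 1 0) := by
  induction l with
  | nil => simp [MP]
  | cons x l ih =>
    obtain ⟨h1, h2, h3, h4, h5, -⟩ := ih fun y hy => hl y (List.mem_cons_of_mem _ hy)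
    have hx : (1 : ℤ) ≤ x := by exact_mod_cast hl x List.mem_cons_self
    rw [MP_cons]
    simp only [Matrix.mul_apply, Fin.sum_univ_two, Matrix.of_apply, Matrix.cons_val',
      Matrix.cons_val_zero, Matrix.cons_val_one, Matrix.cons_val_fin_one]
    refine ⟨by linarith, by linarith, by nlinarith, by nlinarith, by nlinarith, Or.inr ?_⟩
    nlinarith

theorem cf_eq : ∀ l : List ℕ, l ≠ [] → (∀ x ∈ l, 1 ≤ x) →
    cf l = (MP l 1 1 : ℚ) / (MP l 0 1 : ℚ)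
  | [], h, _ => absurd rfl h
  | [b], _, _ => by simp [cf, MP_one]
  | b :: c :: l, _, hl => by
    have hl' : ∀ x ∈ c :: l, 1 ≤ x := fun y hy => hl y (List.mem_cons_of_mem _ hy)
    have ih := cf_eq (c :: l) (by simp) hl'
    have h5 := (MP_good _ hl').2.2.2.2.1
    have h6 : (MP (c :: l) 1 1 : ℚ) ≠ 0 := by
      have : MP (c :: l) 1 1 ≠ 0 := by omega
      exact_mod_cast this
    rw [cf, ih, MP_cons b, one_div_div]
    simp only [Matrix.mul_apply, Fin.sum_univ_two, Matrix.of_apply, Matrix.cons_val',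
      Matrix.cons_val_zero, Matrix.cons_val_one, Matrix.cons_val_fin_one]
    push_cast
    generalize (MP (c :: l) 1 1 : ℚ) = u at h6 ⊢
    generalize (MP (c :: l) 0 1 : ℚ) = v
    rw [zero_mul, one_mul, zero_add, one_mul, add_div, mul_div_assoc, div_self h6]
    ring

theorem MP_even (l : List ℕ) (hl : ∀ x ∈ l, 1 ≤ x) (he : Even l.length) :
    ∃ α β γ δ : ℕ, MP l = !![(α : ℤ), β; γ, δ] ∧ 1 ≤ α ∧ β < δ ∧
      (α : ℤ) * δ - β * γ = 1 := by
  obtain ⟨h1, h2, h3, h4, h5, h6⟩ := MP_good l hl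
  have hd := MP_det l
  rw [he.neg_one_pow, Matrix.det_fin_two] at hd
  have hlt : MP l 0 1 < MP l 1 1 := by
    rcases h6 with h6 | h6
    · subst h6; simp [MP]
    · rcases h4.lt_or_eq with h | h
      · exact h
      · exfalso; rw [h] at hd; nlinarith
  have ha : 1 ≤ MP l 0 0 := by
    by_contra hh
    have : MP l 0 0 = 0 := by omega
    rw [this] at hd
    nlinarith
  lift MP l 0 0 to ℕ using h1 with α hα
  lift MP l 0 1 to ℕ using h2 with β hβ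
  lift MP l 1 0 to ℕ using h3 with γ hγ
  lift MP l 1 1 to ℕ using (by omega) with δ hδ
  refine ⟨α, β, γ, δ, ?_, by omega, by omega, hd⟩
  rw [Matrix.eta_fin_two (MP l), ← hα, ← hβ, ← hγ, ← hδ]

theorem MP_snoc {l : List ℕ} {α β γ δ : ℕ} (h : MP l = !![(α : ℤ), β; γ, δ]) (x : ℕ) :
    MP (l ++ [x]) = !![(β : ℤ), α + x * β; δ, γ + x * δ] := by
  rw [MP_append, h, MP_one, Matrix.mul_fin_two]
  ext i j; fin_cases i <;> fin_cases j <;> simp <;> ring

theorem cf_snoc {l : List ℕ} (hl : ∀ x ∈ l, 1 ≤ x) {α β γ δ : ℕ}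
    (h : MP l = !![(α : ℤ), β; γ, δ]) {x : ℕ} (hx : 1 ≤ x) :
    cf (l ++ [x]) = ((γ : ℚ) + x * δ) / (α + x * β) := by
  rw [cf_eq _ (by simp) (by
    intro y hy
    rcases List.mem_append.mp hy with hy | hy
    · exact hl y hy
    · rw [List.mem_singleton.mp hy]; exact hx), MP_snoc h]
  simp

theorem GK_snoc {l : List ℕ} (hl : ∀ x ∈ l, 1 ≤ x) (he : Even l.length) {x : ℕ} (hx : 1 ≤ x) :
    0 < GK (l ++ [x]) ∧ GK (l ++ [x]) ≤ 2 / (x : ℝ) ^ 2 := by
  obtain ⟨α, β, γ, δ, hE, hα, hβ, hd⟩ := MP_even l hl he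
  have hα' : (1 : ℝ) ≤ α := by exact_mod_cast hα
  have hδ' : (1 : ℝ) ≤ δ := by exact_mod_cast (show 1 ≤ δ by omega)
  have hx' : (1 : ℝ) ≤ x := by exact_mod_cast hx
  have hβ' : (0 : ℝ) ≤ β := Nat.cast_nonneg _
  have hγ' : (0 : ℝ) ≤ γ := Nat.cast_nonneg _
  have hd' : (α : ℝ) * δ - β * γ = 1 := by exact_mod_cast hd
  obtain ⟨r, hr⟩ : ∃ r : ℝ, r = α + x * β := ⟨_, rfl⟩
  obtain ⟨s, hs⟩ : ∃ s : ℝ, s = γ + x * δ := ⟨_, rfl⟩
  have hr1 : 1 ≤ r := by rw [hr]; nlinarith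
  have hs1 : x ≤ s := by rw [hs]; nlinarith
  have hdet : δ * r - β * s = 1 := by rw [hr, hs]; linear_combination hd'
  have e : GK (l ++ [x]) = Real.log (1 + 1 / (s * (r + β + (s + δ)))) / Real.log 2 := by
    simp only [GK, List.dropLast_concat, List.getLastD_concat, Real.logb]
    rw [cf_snoc hl hE hx, cf_snoc hl hE (show 1 ≤ x + 1 by omega)]
    congr 2
    push_cast
    rw [show (γ : ℝ) + (x + 1) * δ = s + δ by rw [hs]; ring,
      show (α : ℝ) + (x + 1) * β = r + β by rw [hr]; ring, ← hr, ← hs]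
    have n1 : r ≠ 0 := by linarith
    have n2 : s ≠ 0 := by linarith
    have n3 : r + β ≠ 0 := by linarith
    have n4 : r + β + (s + δ) ≠ 0 := by linarith
    field_simp
    linear_combination hdet
  have hl2 : 1 / 2 < Real.log 2 := by linarith [Real.log_two_gt_d9]
  have hy : (0 : ℝ) < 1 / (s * (r + β + (s + δ))) := by
    have : 0 < s := by linarith
    positivity
  have hy2 : 1 / (s * (r + β + (s + δ))) ≤ 1 / (x : ℝ) ^ 2 :=
    one_div_le_one_div_of_le (by positivity) (by nlinarith)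
  have h3 : 0 < Real.log (1 + 1 / (s * (r + β + (s + δ)))) := Real.log_pos (by linarith)
  have h4 : Real.log (1 + 1 / (s * (r + β + (s + δ)))) ≤ 1 / (s * (r + β + (s + δ))) := by
    have := Real.log_le_sub_one_of_pos (x := 1 + 1 / (s * (r + β + (s + δ)))) (by linarith)
    linarith
  rw [e]
  refine ⟨div_pos h3 (by linarith), ?_⟩
  rw [div_le_iff₀ (by linarith)]
  have h5 : (0 : ℝ) < 1 / (x : ℝ) ^ 2 := by positivity
  have h6 : 2 / (x : ℝ) ^ 2 = 2 * (1 / (x : ℝ) ^ 2) := by ring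
  rw [h6]
  nlinarith

theorem growth {f h : ℕ → ℕ} {K c : ℕ} (hK : 1 ≤ K) (hc1 : 1 ≤ c) {L lam : ℝ} (hlam : 0 < lam)
    (hL : lam < L) (hh : ∀ N, h N ≤ 2 * (Gs (K * N)).ncard)
    (hf : ∀ N, f N ≤ 2 * (Gs (K * N)).ncard) (hG : ∀ X, (Gs X).ncard ≤ 16 * f (c * X))
    (hbig : 2 * ((c : ℝ) * K) ^ 3 ≤ (lam / 32) ^ 2) :
    ¬ Tendsto (fun N : ℕ => (h N : ℝ) / (f N : ℝ)) atTop (𝓝 L) := by
  intro ht
  obtain ⟨N0, hN0⟩ := eventually_atTop.mp ((ht.eventually_const_lt hL).and (eventually_ge_atTop 1))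
  obtain ⟨d, hd⟩ : ∃ d, d = c * K := ⟨_, rfl⟩
  have hd1 : 1 ≤ d := by rw [hd]; exact Nat.mul_pos hc1 hK
  have hstep : ∀ N ≥ N0, 1 ≤ (f N : ℝ) ∧ lam / 32 * f N ≤ f (d * N) := by
    intro N hN
    have h1 := (hN0 N hN).1
    have hpos : 0 < f N := by
      by_contra hz
      have : f N = 0 := by omega
      rw [this, Nat.cast_zero, div_zero] at h1
      linarith
    have hpos' : (0 : ℝ) < f N := by exact_mod_cast hpos
    refine ⟨by exact_mod_cast hpos, ?_⟩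
    rw [lt_div_iff₀ hpos'] at h1
    have h2 := hh N
    have h3 := hG (K * N)
    rw [← mul_assoc, ← hd] at h3
    have h4 : h N ≤ 32 * f (d * N) := by omega
    have h5 : (h N : ℝ) ≤ 32 * f (d * N) := by exact_mod_cast h4
    linarith
  have hgrow : ∀ j : ℕ, (lam / 32) ^ j ≤ f (d ^ j * N0) := by
    intro j
    induction j with
    | zero => simpa using (hstep N0 le_rfl).1
    | succ j ih =>
      have h1 := (hstep (d ^ j * N0) (Nat.le_mul_of_pos_left _ (Nat.one_le_pow _ _ hd1))).2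
      rw [pow_succ' (lam / 32) j, pow_succ' d j, mul_assoc d]
      exact le_trans (mul_le_mul_of_nonneg_left ih (by positivity)) h1
  have hN1 : 1 ≤ N0 := (hN0 N0 le_rfl).2
  have hup : ∀ N, 1 ≤ N → (f N : ℝ) ^ 2 ≤ 4 * 2916 * (K : ℝ) ^ 3 * (N : ℝ) ^ 3 := by
    intro N hN
    have h2 := hf N
    have h3 := Gs_card_le (K * N) (Nat.mul_pos hK hN)
    have h4 : f N ^ 2 ≤ 4 * 2916 * K ^ 3 * N ^ 3 := by
      calc _ ≤ (2 * (Gs (K * N)).ncard) ^ 2 := Nat.pow_le_pow_left h2 2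
        _ = 4 * (Gs (K * N)).ncard ^ 2 := by ring
        _ ≤ 4 * (2916 * (K * N) ^ 3) := by gcongr
        _ = _ := by ring
    exact_mod_cast h4
  obtain ⟨j, hj⟩ := ((tendsto_pow_atTop_atTop_of_one_lt
    (show (1 : ℝ) < 2 by norm_num)).eventually_gt_atTop
    (4 * 2916 * (K : ℝ) ^ 3 * (N0 : ℝ) ^ 3)).exists
  have h1 := hup (d ^ j * N0) (Nat.mul_pos (Nat.one_le_pow _ _ hd1) hN1)
  have h2 := pow_le_pow_left₀ (by positivity) (hgrow j) 2
  have hcr : (d : ℝ) = c * K := by rw [hd]; push_cast; ring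
  rw [← hcr] at hbig
  have h4 : (2 * (d : ℝ) ^ 3) ^ j ≤ ((lam / 32) ^ j) ^ 2 := by
    rw [← pow_mul, mul_comm j 2, pow_mul]
    exact pow_le_pow_left₀ (by positivity) hbig j
  have h5 := h4.trans (h2.trans h1)
  push_cast at h5
  have hc0 : (0 : ℝ) < ((d : ℝ) ^ 3) ^ j := by
    have : (0 : ℝ) < d := by exact_mod_cast hd1
    positivity
  rw [mul_pow, mul_pow, ← pow_mul (d : ℝ) j 3, mul_comm j 3, pow_mul] at h5
  nlinarith

theorem main (a₁ : ℕ) (l : List ℕ) (h₁ : 1 ≤ a₁) (hl : ∀ x ∈ l, 1 ≤ x) (he : Even l.length) :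
    ∃ A : ℕ, ∀ a : ℕ, A ≤ a →
      ¬ Tendsto (fun N : ℕ => (count N (a₁ :: l ++ [a]) : ℝ) / (count N (l ++ [a, a₁]) : ℝ)) atTop
        (𝓝 (GK (a₁ :: l) / GK (l ++ [a]))) := by
  obtain ⟨α, β, γ, δ, hE, hα, hβ, hd⟩ := MP_even l hl he
  have hg1 : 0 < GK (a₁ :: l) := by
    have hne : a₁ :: l ≠ [] := by simp
    have hpos : ∀ x ∈ a₁ :: l, 1 ≤ x := by
      intro x hx
      rcases List.mem_cons.mp hx with hx | hx
      · rw [hx]; exact h₁
      · exact hl x hx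
    rw [← List.dropLast_append_getLast hne]
    refine (GK_snoc (fun x hx => hpos x (List.mem_of_mem_dropLast hx)) ?_
      (hpos _ (List.getLast_mem hne))).1
    simpa using he
  obtain ⟨g, hg⟩ : ∃ g, g = GK (a₁ :: l) := ⟨_, rfl⟩
  rw [← hg] at hg1 ⊢
  obtain ⟨w, hw⟩ : ∃ w : ℕ, w = α + a₁ * γ := ⟨_, rfl⟩
  obtain ⟨B, hB⟩ : ∃ B : ℕ, B = β + a₁ * δ := ⟨_, rfl⟩
  have hB1 : 1 ≤ B := by rw [hB]; nlinarith
  obtain ⟨K, hK⟩ : ∃ K : ℕ, K = 12 * B * (1 + w ^ 2) := ⟨_, rfl⟩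
  have hK1 : 1 ≤ K := by rw [hK]; exact Nat.mul_pos (by omega) (by positivity)
  obtain ⟨D, hD⟩ : ∃ D : ℕ, D = 6 * (a₁ + 3) * (γ + δ) := ⟨_, rfl⟩
  have hD1 : 1 ≤ D := by rw [hD]; exact Nat.mul_pos (by omega) (by omega)
  refine ⟨α + 4 + 8 * B ^ 2 + ⌈2 * (64 * (D : ℝ) * K) ^ 3 * 128 ^ 2 / g ^ 2⌉₊, fun a ha => ?_⟩
  have ha1 : α + 4 + 8 * B ^ 2 ≤ a := by omega
  have ha2 : 2 * (64 * (D : ℝ) * K) ^ 3 * 128 ^ 2 / g ^ 2 ≤ a :=
    (Nat.le_ceil _).trans (Nat.cast_le.mpr (le_trans (Nat.le_add_left _ _) ha))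
  have ha0 : (0 : ℝ) < a := by exact_mod_cast (show 0 < a by omega)
  have hw' : (w : ℤ) = α + a₁ * γ := by exact_mod_cast hw
  have hB' : (B : ℤ) = β + a₁ * δ := by exact_mod_cast hB
  have ha1' : (α : ℤ) + 4 + 8 * (B : ℤ) ^ 2 ≤ a := by exact_mod_cast ha1
  have hB1' : (1 : ℤ) ≤ B := by exact_mod_cast hB1
  have hα' : (1 : ℤ) ≤ α := by exact_mod_cast hα
  have hβ' : (β : ℤ) < δ := by exact_mod_cast hβ
  have h₁' : (1 : ℤ) ≤ a₁ := by exact_mod_cast h₁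
  have ht : 4 + 8 * (B : ℤ) ^ 2 ≤ w + δ + a * B := by
    have : (a : ℤ) * 1 ≤ a * B := mul_le_mul_of_nonneg_left hB1' (by positivity)
    have h2 : (0 : ℤ) ≤ w + δ := by positivity
    linarith
  have hdT : (w : ℤ) * ((w + δ + a * B) - w) - B * (γ + a * w) = 1 := by
    rw [hw', hB']; linear_combination hd
  have hP1 : MP (a₁ :: l ++ [a]) * !![-(a : ℤ), 1; 1, 0] = !![-(a : ℤ), 1; 1, 0] *
      (!![(w : ℤ), (B : ℤ); γ + a * w, (w + δ + a * B) - w] : Mat) := by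
    rw [List.cons_append, MP_cons, MP_snoc hE, Matrix.mul_fin_two, Matrix.mul_fin_two,
      Matrix.mul_fin_two, hw', hB']
    ext i j; fin_cases i <;> fin_cases j <;> simp <;> ring
  have hR : MP (l ++ [a, a₁]) = !![(α : ℤ) + a * β, β + a₁ * (α + a * β);
      γ + a * δ, δ + a₁ * (γ + a * δ)] := by
    rw [show l ++ [a, a₁] = (l ++ [a]) ++ [a₁] by simp, MP_append, MP_snoc hE, MP_one,
      Matrix.mul_fin_two]
    ext i j; fin_cases i <;> fin_cases j <;> simp <;> ring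
  have hP2 : MP (l ++ [a, a₁]) * !![(α : ℤ), β; γ, δ] = !![(α : ℤ), β; γ, δ] *
      (!![(w : ℤ), (B : ℤ); γ + a * w, (w + δ + a * B) - w] : Mat) := by
    rw [hR, Matrix.mul_fin_two, Matrix.mul_fin_two, hw', hB']
    ext i j; fin_cases i <;> fin_cases j <;> simp <;> ring
  obtain ⟨r, hr⟩ : ∃ r : ℤ, r = α + a * β := ⟨_, rfl⟩
  obtain ⟨s, hs⟩ : ∃ s : ℤ, s = γ + a * δ := ⟨_, rfl⟩
  rw [← hr, ← hs] at hR
  have hB2 : (0 : ℤ) ≤ (B : ℤ) ^ 2 := by positivity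
  have haa : (α : ℤ) + 4 ≤ a := by linarith
  have hβ0 : (0 : ℤ) ≤ β := by positivity
  have hγ0 : (0 : ℤ) ≤ γ := by positivity
  have r1 : (β : ℤ) + 1 ≤ r := by rw [hr]; nlinarith
  have r2 : r < s := by rw [hr, hs]; nlinarith
  have r3 : (δ : ℤ) < s := by rw [hs]; nlinarith
  have r4 : s ≤ (γ + δ) * a := by rw [hs]; nlinarith
  have hback : back (a₁ + 3) (MP (l ++ [a, a₁])) =
      !![3 * s - δ, -s; (a₁ + 3) * (3 * s - δ) + 3 * r - β, -(r + (a₁ + 3) * s)] := by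
    rw [hR, back]
    ext i j; fin_cases i <;> fin_cases j <;> simp <;> ring
  have q1 : (0 : ℤ) ≤ a₁ * s := mul_nonneg (by linarith) (by linarith)
  have q2 : (0 : ℤ) ≤ a₁ * (s - δ) := mul_nonneg (by linarith) (by linarith)
  have q3 : (0 : ℤ) ≤ a₁ * δ := by positivity
  have q4 : 1 * s ≤ a₁ * s := mul_le_mul_of_nonneg_right h₁' (by linarith)
  have hbase : Base (a₁ + 3) (MP (l ++ [a, a₁])) := by
    refine ⟨?_, ?_, ?_, ?_, ?_⟩
    · rw [hR]; simp; linarith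
    · rw [hR]; simpa using r2
    · rw [hR]; simp; linarith
    · rw [hR]; simp; linarith
    · rw [hback]
      simp only [InF, Matrix.of_apply, Matrix.cons_val', Matrix.cons_val_zero,
        Matrix.cons_val_one, Matrix.cons_val_fin_one]
      refine ⟨by linarith, by nlinarith, by nlinarith, by nlinarith, by linarith⟩
  have hDb : ∀ i j, |back (a₁ + 3) (MP (l ++ [a, a₁])) i j| ≤ (D * a : ℕ) := by
    have hD' : ((D * a : ℕ) : ℤ) = 6 * (a₁ + 3) * ((γ + δ) * a) := by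
      rw [hD]; push_cast; ring
    have q5 : 6 * ((a₁ : ℤ) + 3) * s ≤ 6 * (a₁ + 3) * ((γ + δ) * a) :=
      mul_le_mul_of_nonneg_left r4 (by linarith)
    intro i j
    rw [hback, hD', abs_le]
    fin_cases i <;> fin_cases j <;>
      simp only [Fin.zero_eta, Fin.mk_one, Fin.isValue, Matrix.of_apply, Matrix.cons_val',
        Matrix.cons_val_zero, Matrix.cons_val_one, Matrix.cons_val_fin_one] <;>
      constructor <;> nlinarith
  have hdet2 : (MP (l ++ [a, a₁])).det = 1 := by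
    rw [MP_det]
    refine Even.neg_one_pow ?_
    rw [List.length_append]
    exact he.add (by simp)
  have hne : ¬ ∃ a₂, l ++ [a, a₁] = [1, a₂] := by
    rintro ⟨a₂, h⟩
    have h2 := congrArg List.length h
    simp only [List.length_append, List.length_cons, List.length_nil] at h2
    have h3 : l = [] := List.length_eq_zero_iff.mp (by omega)
    rw [h3] at h
    simp at h
    omega
  have hcf : (MP (l ++ [a, a₁]) 1 0 : ℚ) / (MP (l ++ [a, a₁]) 0 0 : ℚ) =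
      cf (l ++ [a, a₁]).dropLast := by
    rw [show l ++ [a, a₁] = (l ++ [a]) ++ [a₁] by simp, List.dropLast_concat,
      cf_snoc hl hE (show 1 ≤ a by omega), show (l ++ [a]) ++ [a₁] = l ++ [a, a₁] by simp, hR,
      hr, hs]
    simp
  have h00 : MP (l ++ [a, a₁]) 0 0 ≠ 0 := by
    rw [hR]; simp; linarith
  obtain ⟨k1, k2⟩ := GK_snoc hl he (show 1 ≤ a by omega)
  refine growth (K := K) (c := 64 * (D * a)) (lam := g * (a : ℝ) ^ 2 / 4) hK1
    (Nat.mul_pos (by norm_num) (Nat.mul_pos hD1 (by omega))) (by positivity) ?_ ?_ ?_ ?_ ?_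
  · rw [lt_div_iff₀ k1]
    have h2 : g * (a : ℝ) ^ 2 / 4 * GK (l ++ [a]) ≤ g * (a : ℝ) ^ 2 / 4 * (2 / (a : ℝ) ^ 2) :=
      mul_le_mul_of_nonneg_left k2 (by positivity)
    have h3 : g * (a : ℝ) ^ 2 / 4 * (2 / (a : ℝ) ^ 2) = g / 2 := by field_simp; ring
    linarith
  · intro N
    rw [hK]
    exact count_leT hB1 ht hdT
      (fun M => repT_of_LLS (by simp [Matrix.det_fin_two]) hP1) N
  · intro N
    rw [hK]
    exact count_leT hB1 ht hdT
      (fun M => repT_of_LLS (Or.inl (by rw [Matrix.det_fin_two_of]; exact hd)) hP2) N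
  · intro X
    exact Gs_le_countB hbase hdet2 hne h00 hcf hDb X
  · rw [div_le_iff₀ (by positivity)] at ha2
    push_cast
    have h2 : (0 : ℝ) < (a : ℝ) ^ 3 := by positivity
    have h3 := mul_le_mul_of_nonneg_right ha2 h2.le
    nlinarith

end Pool.Agent.MP_0a7e48_nt.H75
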